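import Mathlib

open Finset MvPolynomial

namespace Pool.Agent.Results.MP_52e642_an.WeakShanksFalse

/-- Polynomials in `z₁, z₂` (variables `X 0`, `X 1`). -/
abbrev MP := MvPolynomial (Fin 2) ℂ

/-- The squared norm of the Hardy space `H²(𝔻²)` of a polynomial: the sum of the squared moduli of
its coefficients. -/
noncomputable def normSq (g : MP) : ℝ := ∑ J ∈ g.support, ‖g.coeff J‖ ^ 2

/-- The position of `z₁^j z₂^k` in the degree-lexicographic ordering
`1, z₁, z₂, z₁², z₁z₂, z₂², z₁³, …`, counted from `0`. -/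
def degLexIndex (j k : ℕ) : ℕ := (j + k) * (j + k + 1) / 2 + k

/-- `p` lies in `𝒫_n`, the span of the first `n + 1` monomials. -/
def InP (n : ℕ) (p : MP) : Prop := ∀ J ∈ p.support, degLexIndex (J 0) (J 1) ≤ n

/-- `q` is the `n`-th optimal polynomial approximant of `1/f` in `H²(𝔻²)`: the unique minimiser of
`‖p f - 1‖` over `p ∈ 𝒫_n`. -/
def IsOPA (f : MP) (n : ℕ) (q : MP) : Prop :=
  InP n q ∧ ∀ p, InP n p → p ≠ q → normSq (q * f - 1) < normSq (p * f - 1)

/-- the exponent `(j, k)` -/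
noncomputable def ex (j k : ℕ) : Fin 2 →₀ ℕ := Finsupp.single 0 j + Finsupp.single 1 k

theorem ex_zero (j k : ℕ) : ex j k 0 = j := by simp [ex]
theorem ex_one (j k : ℕ) : ex j k 1 = k := by simp [ex]

theorem ex_inj (j k j' k' : ℕ) : ex j k = ex j' k' ↔ j = j' ∧ k = k' := by
  constructor
  · intro h
    have e0 := DFunLike.congr_fun h 0
    have e1 := DFunLike.congr_fun h 1
    rw [ex_zero, ex_zero] at e0
    rw [ex_one, ex_one] at e1
    exact ⟨e0, e1⟩
  · rintro ⟨rfl, rfl⟩; rfl

theorem monomial_ex (j k : ℕ) (c : ℂ) : monomial (ex j k) c = C c * (X 0 ^ j * X 1 ^ k) := by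
  unfold ex
  rw [monomial_eq]
  congr 1
  rw [Finsupp.prod_add_index']
  · rw [Finsupp.prod_single_index, Finsupp.prod_single_index] <;> simp
  · simp
  · intro i a b; rw [pow_add]

/-- the inner product of `H²(𝔻²)` -/
noncomputable def ip (g h : MP) : ℂ := ∑ J ∈ g.support, g.coeff J * (starRingEnd ℂ) (h.coeff J)

theorem ip_eq_sum (g h : MP) (s : Finset (Fin 2 →₀ ℕ)) (hs : g.support ⊆ s) :
    ip g h = ∑ J ∈ s, g.coeff J * (starRingEnd ℂ) (h.coeff J) := by
  unfold ip
  refine Finset.sum_subset hs fun J _ hJ => ?_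
  rw [MvPolynomial.notMem_support_iff.1 hJ]
  simp

theorem normSq_eq_sum (g : MP) (s : Finset (Fin 2 →₀ ℕ)) (hs : g.support ⊆ s) :
    normSq g = ∑ J ∈ s, ‖g.coeff J‖ ^ 2 := by
  unfold normSq
  refine Finset.sum_subset hs fun J _ hJ => ?_
  rw [MvPolynomial.notMem_support_iff.1 hJ]
  simp

theorem ip_add (g g' h : MP) : ip (g + g') h = ip g h + ip g' h := by
  classical
  rw [ip_eq_sum (g + g') h (g.support ∪ g'.support) MvPolynomial.support_add,
    ip_eq_sum g h (g.support ∪ g'.support) subset_union_left,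
    ip_eq_sum g' h (g.support ∪ g'.support) subset_union_right, ← Finset.sum_add_distrib]
  refine Finset.sum_congr rfl fun J _ => ?_
  rw [coeff_add]; ring

theorem ip_C_mul (c : ℂ) (g h : MP) : ip (C c * g) h = c * ip g h := by
  rw [ip_eq_sum (C c * g) h g.support (by
      intro J hJ
      rw [MvPolynomial.mem_support_iff] at hJ ⊢
      intro h
      apply hJ
      rw [coeff_C_mul, h, mul_zero])]
  unfold ip
  rw [Finset.mul_sum]
  refine Finset.sum_congr rfl fun J _ => ?_
  rw [coeff_C_mul]; ring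

theorem ip_monomial (J : Fin 2 →₀ ℕ) (c : ℂ) (h : MP) :
    ip (monomial J c) h = c * (starRingEnd ℂ) (h.coeff J) := by
  classical
  rw [ip_eq_sum (monomial J c) h {J} MvPolynomial.support_monomial_subset]
  simp

theorem normSq_add (g h : MP) : normSq (g + h) = normSq g + normSq h + 2 * (ip h g).re := by
  classical
  rw [normSq_eq_sum (g + h) (g.support ∪ h.support) MvPolynomial.support_add,
    normSq_eq_sum g (g.support ∪ h.support) subset_union_left,
    normSq_eq_sum h (g.support ∪ h.support) subset_union_right,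
    ip_eq_sum h g (g.support ∪ h.support) subset_union_right, Complex.re_sum, Finset.mul_sum,
    ← Finset.sum_add_distrib, ← Finset.sum_add_distrib]
  refine Finset.sum_congr rfl fun J _ => ?_
  rw [coeff_add, ← Complex.normSq_eq_norm_sq, ← Complex.normSq_eq_norm_sq,
    ← Complex.normSq_eq_norm_sq, Complex.normSq_add]
  have : (g.coeff J * (starRingEnd ℂ) (h.coeff J)).re = (h.coeff J * (starRingEnd ℂ) (g.coeff J)).re := by
    simp only [Complex.mul_re, Complex.conj_re, Complex.conj_im]; ring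
  rw [this]

theorem normSq_pos (g : MP) (hg : g ≠ 0) : 0 < normSq g := by
  obtain ⟨J, hJ⟩ := MvPolynomial.ne_zero_iff.1 hg
  unfold normSq
  refine Finset.sum_pos' (fun J _ => sq_nonneg _) ⟨J, MvPolynomial.mem_support_iff.2 hJ, ?_⟩
  have := norm_pos_iff.2 hJ
  positivity

/-- the polynomial `(2 + z₁z₂)² (3 + 2z₁)(3 + 2z₂)` -/
noncomputable def F : MP := (2 + X 0 * X 1) ^ 2 * (3 + 2 * X 0) * (3 + 2 * X 1)

/-- its second optimal approximant -/
noncomputable def Q : MP := C (36/23394573) * (C 8205 - C 4134 * X 0 - C 4134 * X 1)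

theorem C2 : (2 : MP) = C 2 := (map_ofNat (C : ℂ →+* MP) 2).symm
theorem C3 : (3 : MP) = C 3 := (map_ofNat (C : ℂ →+* MP) 3).symm

theorem F_expand : F = monomial (ex 0 0) 36 + monomial (ex 1 0) 24 + monomial (ex 0 1) 24 +
    monomial (ex 1 1) 52 + monomial (ex 2 1) 24 + monomial (ex 1 2) 24 + monomial (ex 2 2) 25 +
    monomial (ex 3 2) 6 + monomial (ex 2 3) 6 + monomial (ex 3 3) 4 := by
  simp only [monomial_ex]
  have h36 : (C 36 : MP) = 36 := map_ofNat (C : ℂ →+* MP) 36
  have h24 : (C 24 : MP) = 24 := map_ofNat (C : ℂ →+* MP) 24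
  have h52 : (C 52 : MP) = 52 := map_ofNat (C : ℂ →+* MP) 52
  have h25 : (C 25 : MP) = 25 := map_ofNat (C : ℂ →+* MP) 25
  have h6 : (C 6 : MP) = 6 := map_ofNat (C : ℂ →+* MP) 6
  have h4 : (C 4 : MP) = 4 := map_ofNat (C : ℂ →+* MP) 4
  rw [h36, h24, h52, h25, h6, h4]
  unfold F
  ring

theorem coeff_ex_monomial (i j k l : ℕ) (c : ℂ) :
    coeff (ex i j) (monomial (ex k l) c) = if k = i ∧ l = j then c else 0 := by
  classical
  rw [coeff_monomial]
  simp only [ex_inj]

theorem X0_mul (k l : ℕ) (c : ℂ) : X 0 * monomial (ex k l) c = (monomial (ex (k+1) l) c : MP) := by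
  rw [monomial_ex, monomial_ex, pow_succ]; ring

theorem X1_mul (k l : ℕ) (c : ℂ) : X 1 * monomial (ex k l) c = (monomial (ex k (l+1)) c : MP) := by
  rw [monomial_ex, monomial_ex, pow_succ]; ring

theorem one_eq : (1 : MP) = monomial (ex 0 0) 1 := by rw [monomial_ex]; simp

/-- the residual -/
noncomputable def Rs : MP := Q * F - 1

theorem Rs_eq : Rs = C (36/23394573) * (C 8205 * F - C 4134 * (X 0 * F) - C 4134 * (X 1 * F)) - 1 := by
  unfold Rs Q; ring

theorem orth0 : ip F Rs = 0 := by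
  rw [Rs_eq, one_eq, F_expand]
  simp only [mul_add, X0_mul, X1_mul, ip_add, ip_monomial, coeff_sub, coeff_add, coeff_C_mul,
    coeff_ex_monomial]
  norm_num
  simp only [map_ofNat]
  norm_num

theorem orth1 : ip (X 0 * F) Rs = 0 := by
  rw [Rs_eq, one_eq, F_expand]
  simp only [mul_add, X0_mul, X1_mul, ip_add, ip_monomial, coeff_sub, coeff_add, coeff_C_mul,
    coeff_ex_monomial]
  norm_num
  simp only [map_ofNat]
  norm_num

theorem orth2 : ip (X 1 * F) Rs = 0 := by
  rw [Rs_eq, one_eq, F_expand]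
  simp only [mul_add, X0_mul, X1_mul, ip_add, ip_monomial, coeff_sub, coeff_add, coeff_C_mul,
    coeff_ex_monomial]
  norm_num
  simp only [map_ofNat]
  norm_num

theorem F_ne_zero (z : Fin 2 → ℂ) (h0 : ‖z 0‖ ≤ 1) (h1 : ‖z 1‖ ≤ 1) : eval z F ≠ 0 := by
  have e : eval z F = (2 + z 0 * z 1) ^ 2 * (3 + 2 * z 0) * (3 + 2 * z 1) := by
    unfold F
    simp only [map_mul, map_pow, map_add, eval_X, map_ofNat]
  rw [e]
  have a1 : 2 + z 0 * z 1 ≠ 0 := by
    intro h
    have h2 : z 0 * z 1 = -2 := by linear_combination h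
    have h3 : ‖z 0 * z 1‖ ≤ 1 := by
      rw [norm_mul]; nlinarith [norm_nonneg (z 0), norm_nonneg (z 1)]
    rw [h2] at h3
    norm_num at h3
  have a2 : ∀ w : ℂ, ‖w‖ ≤ 1 → 3 + 2 * w ≠ 0 := by
    intro w hw h
    have h2 : w = -(3/2) := by linear_combination h / 2
    rw [h2] at hw
    norm_num at hw
  exact mul_ne_zero (mul_ne_zero (pow_ne_zero _ a1) (a2 _ h0)) (a2 _ h1)

theorem InP_two (p : MP) (hp : InP 2 p) :
    p = C (p.coeff (ex 0 0)) + C (p.coeff (ex 1 0)) * X 0 + C (p.coeff (ex 0 1)) * X 1 := by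
  have key : ∀ J : Fin 2 →₀ ℕ, J = ex (J 0) (J 1) := by
    intro J
    ext i
    fin_cases i
    · simp [ex_zero]
    · simp [ex_one]
  have e1 : (C (p.coeff (ex 0 0)) + C (p.coeff (ex 1 0)) * X 0 + C (p.coeff (ex 0 1)) * X 1 : MP) =
      monomial (ex 0 0) (p.coeff (ex 0 0)) + monomial (ex 1 0) (p.coeff (ex 1 0)) +
        monomial (ex 0 1) (p.coeff (ex 0 1)) := by
    simp only [monomial_ex]; ring
  rw [e1]
  apply MvPolynomial.ext
  intro J
  rw [key J]
  generalize J 0 = a
  generalize J 1 = b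
  simp only [coeff_add, coeff_ex_monomial]
  by_cases h : (ex a b) ∈ p.support
  · have h1 := hp _ h
    rw [ex_zero, ex_one] at h1
    have h2 : (a + b) * (a + b + 1) / 2 + b ≤ 2 := h1
    have hab : a + b ≤ 1 := by
      by_contra hcon
      push Not at hcon
      have h3 : 2 * 3 ≤ (a + b) * (a + b + 1) := Nat.mul_le_mul (by omega) (by omega)
      omega
    rcases Nat.eq_zero_or_pos a with ha | ha
    · rcases Nat.eq_zero_or_pos b with hb | hb
      · subst ha; subst hb; simp
      · have : b = 1 := by omega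
        subst ha; subst this; simp
    · have : a = 1 := by omega
      have hb : b = 0 := by omega
      subst this; subst hb; simp
  · rw [MvPolynomial.notMem_support_iff.1 h]
    have h4 : ∀ i j : ℕ, i = a ∧ j = b → coeff (ex i j) p = 0 := by
      rintro i j ⟨rfl, rfl⟩
      exact MvPolynomial.notMem_support_iff.1 h
    have h5 : ∀ i j : ℕ, (if i = a ∧ j = b then coeff (ex i j) p else 0) = 0 := by
      intro i j
      split_ifs with hc
      · exact h4 i j hc
      · rfl
    rw [h5, h5, h5]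
    simp

theorem InP_Q : InP 2 Q := by
  intro J hJ
  have e : Q = monomial (ex 0 0) (36/23394573 * 8205) + monomial (ex 1 0) (-(36/23394573 * 4134)) +
      monomial (ex 0 1) (-(36/23394573 * 4134)) := by
    simp only [monomial_ex, C_mul, C_neg]
    unfold Q
    ring
  rw [e] at hJ
  rw [MvPolynomial.mem_support_iff, coeff_add, coeff_add, coeff_monomial, coeff_monomial,
    coeff_monomial] at hJ
  by_cases h0 : ex 0 0 = J
  · rw [← h0, ex_zero, ex_one]; decide
  by_cases h1 : ex 1 0 = J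
  · rw [← h1, ex_zero, ex_one]; decide
  by_cases h2 : ex 0 1 = J
  · rw [← h2, ex_zero, ex_one]; decide
  simp [h0, h1, h2] at hJ

theorem F_poly_ne : F ≠ 0 := by
  intro h
  have := F_ne_zero (fun _ => 0) (by simp) (by simp)
  rw [h] at this
  simp at this

theorem isOPA : IsOPA F 2 Q := by
  refine ⟨InP_Q, ?_⟩
  intro p hp hne
  set r : MP := p - Q with hr
  have hrne : r ≠ 0 := sub_ne_zero.2 hne
  have hp2 := InP_two p hp
  have hq2 := InP_two Q InP_Q
  obtain ⟨a, b, c, habc⟩ : ∃ a b c : ℂ, r = C a + C b * X 0 + C c * X 1 := by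
    refine ⟨p.coeff (ex 0 0) - Q.coeff (ex 0 0), p.coeff (ex 1 0) - Q.coeff (ex 1 0),
      p.coeff (ex 0 1) - Q.coeff (ex 0 1), ?_⟩
    rw [hr]
    conv_lhs => rw [hp2, hq2]
    simp only [C_sub]
    ring
  have e : p * F - 1 = Rs + r * F := by unfold Rs; rw [hr]; ring
  have horth : ip (r * F) Rs = 0 := by
    have e2 : r * F = C a * F + C b * (X 0 * F) + C c * (X 1 * F) := by rw [habc]; ring
    rw [e2, ip_add, ip_add, ip_C_mul, ip_C_mul, ip_C_mul, orth0, orth1, orth2]
    simp
  have hpos : 0 < normSq (r * F) := normSq_pos _ (mul_ne_zero hrne F_poly_ne)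
  have hRs : Q * F - 1 = Rs := rfl
  rw [e, normSq_add, horth, hRs]
  simp only [Complex.zero_re, mul_zero, add_zero]
  linarith

/-- The weak Shanks conjecture fails on the bidisk: a polynomial without zeros on the closed bidisk
and an optimal polynomial approximant of its reciprocal in `H²(𝔻²)` with a zero in the open
bidisk. -/
theorem result : ∃ f : MP, (∀ z : Fin 2 → ℂ, ‖z 0‖ ≤ 1 → ‖z 1‖ ≤ 1 → eval z f ≠ 0) ∧
    ∃ (n : ℕ) (q : MP), IsOPA f n q ∧ ∃ z : Fin 2 → ℂ, ‖z 0‖ < 1 ∧ ‖z 1‖ < 1 ∧ eval z q = 0 := by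
  refine ⟨F, F_ne_zero, 2, Q, isOPA, fun _ => 8205/8268, ?_, ?_, ?_⟩
  · norm_num
  · norm_num
  · unfold Q
    simp only [map_mul, map_sub, eval_C, eval_X]
    norm_num

end Pool.Agent.Results.MP_52e642_an.WeakShanksFalse
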